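import Pool.Agent.EGF.StmtsV

/-!
# Squad EGF, block V, row GSP: many disjoint spots
-/

set_option autoImplicit false

open Finset

namespace Pool.Agent.EGF.H41

theorem gsp (h1 : ShrStmt) (h2 : FanStmt) : GspStmt := by
  intro V _ k c g A q T κ hq0 hq1 hT hκ hrb
  obtain ⟨N, hN⟩ : ∃ N : ℕ, N = ⌈T⌉₊ := ⟨_, rfl⟩
  obtain ⟨t, ht⟩ : ∃ t : ℕ, t = ⌈q / 2 * (N : ℝ)⌉₊ := ⟨_, rfl⟩
  have hN1 : 1 ≤ N := by
    rw [hN]; exact Nat.one_le_iff_ne_zero.mpr (Nat.ceil_pos.mpr hT).ne'
  have hN0 : (0 : ℝ) < N := by exact_mod_cast hN1
  have htN : t ≤ N := by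
    rw [ht, Nat.ceil_le]; nlinarith
  have key : ∀ i : ℕ, i ≤ ⌊κ * A.card / (2 * N)⌋₊ + 1 →
      ∃ (X0 X1 : ℕ → Finset V) (R : ℕ → V → Finset V), Spots c g A N t i X0 X1 R := by
    intro i
    induction i with
    | zero =>
      intro _
      exact ⟨fun _ => ∅, fun _ => ∅, fun _ _ => ∅,
        ⟨fun i hi => absurd hi (Nat.not_lt_zero _), fun i hi => absurd hi (Nat.not_lt_zero _),
          fun i hi => absurd hi (Nat.not_lt_zero _)⟩⟩
    | succ i ih =>
      intro hi
      obtain ⟨X0, X1, R, hS⟩ := ih (by omega)
      have hi2 : (i : ℝ) ≤ κ * A.card / (2 * N) := by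
        have h3 : i ≤ ⌊κ * A.card / (2 * N)⌋₊ := by omega
        exact (Nat.le_floor_iff (by positivity)).mp h3
      have hi3 : 2 * (N : ℝ) * i ≤ κ * A.card := by
        rw [le_div_iff₀ (by positivity)] at hi2; linarith
      obtain ⟨U, hU⟩ : ∃ U, U = (range i).biUnion fun j => X0 j ∪ X1 j := ⟨_, rfl⟩
      have hUA : U ⊆ A := by
        rw [hU, biUnion_subset]
        intro j hj
        obtain ⟨h3, h4, _⟩ := hS.h0 j (mem_range.mp hj)
        exact union_subset h3 h4
      have hUc : (U.card : ℝ) ≤ κ * A.card := by
        have h3 : U.card ≤ i * (2 * N) := by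
          rw [hU]
          refine card_biUnion_le.trans ?_
          refine (sum_le_sum (g := fun _ => 2 * N) ?_).trans ?_
          · intro j hj
            obtain ⟨_, _, h5, h6, _⟩ := hS.h0 j (mem_range.mp hj)
            have h7 := card_union_le (X0 j) (X1 j)
            omega
          · rw [sum_const, card_range, smul_eq_mul]
        have h4 : (U.card : ℝ) ≤ i * (2 * N) := by exact_mod_cast h3
        linarith
      have hg := hrb U hUA hUc
      unfold spt at hg
      rw [mem_filter] at hg
      obtain ⟨_, A1, hA1, B1, hB1, hdis, hTA, hTB, hden⟩ := hg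
      obtain ⟨A', hA', B', hB', cA, cB, hden'⟩ := h1 V k c g A1 B1 q N hN1
        (by rw [hN]; exact Nat.ceil_le.mpr hTA) (by rw [hN]; exact Nat.ceil_le.mpr hTB) hden
      have hdis' : Disjoint A' B' :=
        disjoint_of_subset_left hA' (disjoint_of_subset_right hB' hdis)
      obtain ⟨Y0, hY0, R', cY, hR'⟩ := h2 V k c g A' B' q N hq0 hq1 hN1 cA cB hdis' hden'
      rw [← ht] at cY
      have hYU : Disjoint (Y0 ∪ B') U := by
        have h3 : Y0 ∪ B' ⊆ A \ U :=
          union_subset ((hY0.trans hA').trans hA1) (hB'.trans hB1)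
        exact disjoint_of_subset_left h3 sdiff_disjoint
      have hXU : ∀ j < i, X0 j ∪ X1 j ⊆ U := by
        intro j hj
        rw [hU]
        exact subset_biUnion_of_mem (fun j => X0 j ∪ X1 j) (mem_range.mpr hj)
      refine ⟨Function.update X0 i Y0, Function.update X1 i B', Function.update R i R', ?_⟩
      have hne : ∀ j, j < i + 1 → j ≠ i → j < i := fun j h3 h4 => by omega
      refine ⟨?_, ?_, ?_⟩
      · intro j hj
        by_cases hji : j = i
        · subst hji
          rw [Function.update_self, Function.update_self]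
          exact ⟨((hY0.trans hA').trans hA1).trans sdiff_subset,
            (hB'.trans hB1).trans sdiff_subset, cY, cB,
            disjoint_of_subset_left hY0 hdis'⟩
        · rw [Function.update_of_ne hji, Function.update_of_ne hji]
          exact hS.h0 j (hne j hj hji)
      · intro j hj
        by_cases hji : j = i
        · subst hji
          rw [Function.update_self, Function.update_self, Function.update_self]
          intro x hx
          obtain ⟨h3, h4, h5⟩ := hR' x hx
          exact ⟨h3, by rw [h4, ← ht], h5⟩
        · rw [Function.update_of_ne hji, Function.update_of_ne hji, Function.update_of_ne hji]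
          exact hS.hR j (hne j hj hji)
      · intro j hj j' hj' hjj
        by_cases hji : j = i
        · subst hji
          rw [Function.update_self, Function.update_self,
            Function.update_of_ne (Ne.symm hjj), Function.update_of_ne (Ne.symm hjj)]
          exact disjoint_of_subset_right (hXU j' (hne j' hj' (Ne.symm hjj))) hYU
        · rw [Function.update_of_ne hji, Function.update_of_ne hji]
          by_cases hji' : j' = i
          · subst hji'
            rw [Function.update_self, Function.update_self]
            exact disjoint_of_subset_left (hXU j (hne j hj hji)) hYU.symm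
          · rw [Function.update_of_ne hji', Function.update_of_ne hji']
            exact hS.hd j (hne j hj hji) j' (hne j' hj' hji') hjj
  obtain ⟨X0, X1, R, hS⟩ := key _ le_rfl
  refine ⟨⌊κ * A.card / (2 * N)⌋₊ + 1, X0, X1, R, by omega, ?_, ?_⟩
  · rw [← hN, ← ht]; exact hS
  · rw [← hN]
    have h3 := Nat.lt_floor_add_one (κ * A.card / (2 * N))
    rw [div_lt_iff₀ (by positivity)] at h3
    push_cast
    linarith

end Pool.Agent.EGF.H41
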