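import Pool.Agent.EGF.StmtsR

/-!
EGF, row IT7: all rounds.
-/

set_option autoImplicit false

open Finset

namespace Pool.Agent.EGF.H41

/-- The induction predicate. -/
def It7P (θ ω : ℝ) (s : ℕ) (lam : ℝ) (m : ℕ) : Prop :=
  ∀ δ : ℝ, 0 < δ → δ ≤ 1 → ∃ ρ ν N0 : ℝ, 0 < ρ ∧ ρ ≤ 1 ∧ 0 < ν ∧ ν ≤ 1 ∧ 1 ≤ N0 ∧
    ∀ (V : Type) [DecidableEq V] (k : ℕ) (c : V → V → Fin k) (U W A : Finset V)
      (M L : Finset ℕ) (C D : Finset (Fin k)) (e : Fin k) (y : ℕ → V) (b : ℕ → Fin k) (Lc : ℝ),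
    (∀ x y, c x y = c y x) → Rec2 c U θ → 1 ≤ Lc → 32 * Lc + 1 ≤ s → Flat c U s (Lc * s) →
    W ⊆ U → A ⊆ W → (1 - ν) * Real.log U.card ≤ Real.log A.card →
    Real.log k ≤ ν * Real.log U.card →
    N0 ≤ Real.log U.card → δ * Real.log U.card ≤ L.card → L ⊆ M →
    (∀ l ∈ M, y l ∈ U ∧ y l ∉ W) → Chn c y b M → Rg7 c U C e y b A L ρ ω lam →
    D ⊆ C → (C \ D).card ≤ m →
    (∀ g ∈ D, ∃ (A0 : Finset V) (L0 : Finset ℕ) (x x' : V) (a : Fin k) (l : ℕ),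
      A0 ⊆ W ∧ L0 ⊆ M ∧ Rn7 c C e y b A0 L0 A L x x' a g l) →
    ∃ Q : Finset V, Q ⊆ U ∧ Q.card = 7 ∧ (pal c Q).card ≤ 5

theorem it7_mono {V : Type} [DecidableEq V] {k : ℕ} {c : V → V → Fin k}
    {C : Finset (Fin k)} {e : Fin k} {y : ℕ → V} {b : ℕ → Fin k} {A0 A A' : Finset V}
    {L0 L L' : Finset ℕ} {x x' : V} {a g : Fin k} {l : ℕ}
    (h : Rn7 c C e y b A0 L0 A L x x' a g l) (hA : A' ⊆ A) (hL : L' ⊆ L) :
    Rn7 c C e y b A0 L0 A' L' x x' a g l where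
  hx := h.hx
  hx' := h.hx'
  hl := h.hl
  nx := h.nx
  eq := h.eq
  f0 := h.f0
  f1 := h.f1
  gC := h.gC
  sA := hA.trans h.sA
  sL := hL.trans h.sL
  cA := fun z hz => h.cA z (hA hz)
  cL := fun i hi => h.cL i (hL hi)

theorem it7_step (hcn : Cn7Stmt) (θ ω : ℝ) (s : ℕ) (lam : ℝ)
    (hR : ∀ δ : ℝ, 0 < δ → δ ≤ 1 → ∃ ρ η ν N0 : ℝ, 0 < ρ ∧ ρ ≤ 1 ∧
      0 < η ∧ η ≤ 1 ∧ 0 < ν ∧ ν ≤ 1 ∧ 1 ≤ N0 ∧
      ∀ (V : Type) [DecidableEq V] (k : ℕ) (c : V → V → Fin k) (U A : Finset V) (L : Finset ℕ)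
        (C : Finset (Fin k)) (e : Fin k) (y : ℕ → V) (b : ℕ → Fin k) (Lc : ℝ),
      (∀ x y, c x y = c y x) → Rec2 c U θ → 1 ≤ Lc → 32 * Lc + 1 ≤ s → Flat c U s (Lc * s) →
      A ⊆ U → (1 - ν) * Real.log U.card ≤ Real.log A.card → Real.log k ≤ ν * Real.log U.card →
      N0 ≤ Real.log U.card → δ * Real.log U.card ≤ L.card →
      (∀ l ∈ L, ∀ i ∈ L, b l = b i → l = i) → Rg7 c U C e y b A L ρ ω lam →
      ∃ (A' : Finset V) (L' : Finset ℕ) (x x' : V) (a g : Fin k) (l : ℕ),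
        Rn7 c C e y b A L A' L' x x' a g l ∧ η * A.card ≤ (A'.card : ℝ) ∧
        η * L.card ≤ (L'.card : ℝ))
    (m : ℕ) (ih : m = 0 ∨ ∃ m', m = m' + 1 ∧ It7P θ ω s lam m') : It7P θ ω s lam m := by
  intro δ hδ hδ1
  obtain ⟨ρ1, η1, ν1, N1, hρ1, hρ1', hη1, hη1', hν1, hν1', hN1, hround⟩ := hR δ hδ hδ1
  -- common part
  have common : ∀ (ρ ν N0 : ℝ), ρ ≤ ρ1 → ν ≤ ν1 → N1 ≤ N0 →
      ∀ (V : Type) [DecidableEq V] (k : ℕ) (c : V → V → Fin k) (U W A : Finset V)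
      (M L : Finset ℕ) (C D : Finset (Fin k)) (e : Fin k) (y : ℕ → V) (b : ℕ → Fin k) (Lc : ℝ),
      (∀ x y, c x y = c y x) → Rec2 c U θ → 1 ≤ Lc → 32 * Lc + 1 ≤ s → Flat c U s (Lc * s) →
      W ⊆ U → A ⊆ W → (1 - ν) * Real.log U.card ≤ Real.log A.card →
      Real.log k ≤ ν * Real.log U.card →
      N0 ≤ Real.log U.card → δ * Real.log U.card ≤ L.card → L ⊆ M →
      (∀ l ∈ M, y l ∈ U ∧ y l ∉ W) → Chn c y b M → Rg7 c U C e y b A L ρ ω lam →
      (∀ g ∈ D, ∃ (A0 : Finset V) (L0 : Finset ℕ) (x x' : V) (a : Fin k) (l : ℕ),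
        A0 ⊆ W ∧ L0 ⊆ M ∧ Rn7 c C e y b A0 L0 A L x x' a g l) →
      ∃ (A' : Finset V) (L' : Finset ℕ) (x x' : V) (a g : Fin k) (l : ℕ),
        Rn7 c C e y b A L A' L' x x' a g l ∧ η1 * A.card ≤ (A'.card : ℝ) ∧
        η1 * L.card ≤ (L'.card : ℝ) ∧
        (g ∈ D → ∃ Q : Finset V, Q ⊆ U ∧ Q.card = 7 ∧ (pal c Q).card ≤ 5) := by
    intro ρ ν N0 hρ hν hN0 V _ k c U W A M L C D e y b Lc hsym hrec hLc hLs hflat hWU hAW hA hk
      hN hL hLM hy hch hrg hD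
    have hlog0 : 0 ≤ Real.log U.card := by linarith
    have hrg' : Rg7 c U C e y b A L ρ1 ω lam := by
      intro A' hA' L' hL' h1 h2
      refine hrg A' hA' L' hL' ?_ ?_
      · exact (mul_le_mul_of_nonneg_right hρ (Nat.cast_nonneg _)).trans h1
      · exact (mul_le_mul_of_nonneg_right hρ (Nat.cast_nonneg _)).trans h2
    obtain ⟨A', L', x, x', a, g, l, hrn, hA', hL'⟩ := hround V k c U A L C e y b Lc hsym hrec hLc
      hLs hflat (hAW.trans hWU)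
      (le_trans (mul_le_mul_of_nonneg_right (by linarith) hlog0) hA)
      (hk.trans (mul_le_mul_of_nonneg_right hν hlog0)) (hN0.trans hN) hL
      (fun l hl i hi hli => hch.2 l (hLM hl) i (hLM hi) hli) hrg'
    refine ⟨A', L', x, x', a, g, l, hrn, hA', hL', fun hg => ?_⟩
    have hL'ne : 0 < (L'.card : ℝ) := by
      have h1 : 0 < δ * Real.log U.card := mul_pos hδ (by linarith)
      have h2 : 0 < η1 * L.card := mul_pos hη1 (by linarith)
      linarith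
    obtain ⟨i, hi⟩ := Finset.card_pos.mp (by exact_mod_cast hL'ne)
    obtain ⟨A0, L0, x0, x0', a0, l0, hA0, hL0, hr0⟩ := hD g hg
    exact hcn V k c C U W A0 A A' M L0 L L' x0 x0' x x' e a0 a g l0 l i y b hsym hWU hy hch hA0
      hL0 hr0 hrn hi
  rcases ih with hm | ⟨m', hm, ih⟩
  · refine ⟨ρ1, ν1, N1, hρ1, hρ1', hν1, hν1', hN1, ?_⟩
    intro V _ k c U W A M L C D e y b Lc hsym hrec hLc hLs hflat hWU hAW hA hk
      hN hL hLM hy hch hrg hDC hcard hD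
    obtain ⟨A', L', x, x', a, g, l, hrn, hA', hL', hfin⟩ := common ρ1 ν1 N1 le_rfl le_rfl le_rfl
      V k c U W A M L C D e y b Lc hsym hrec hLc hLs hflat hWU hAW hA hk hN hL hLM hy hch hrg hD
    apply hfin
    by_contra hgD
    have h1 : g ∈ C \ D := Finset.mem_sdiff.mpr ⟨hrn.gC, hgD⟩
    have h2 : 0 < (C \ D).card := Finset.card_pos.mpr ⟨g, h1⟩
    omega
  · have hδ' : 0 < η1 * δ := mul_pos hη1 hδ
    have hδ1' : η1 * δ ≤ 1 := mul_le_one₀ hη1' hδ.le hδ1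
    obtain ⟨ρ2, ν2, N2, hρ2, hρ2', hν2, hν2', hN2, hrec2⟩ := ih (η1 * δ) hδ' hδ1'
    refine ⟨min ρ1 (η1 * ρ2), min ν1 (ν2 / 2), max (max N1 N2) (2 * Real.log (1 / η1) / ν2),
      lt_min hρ1 (mul_pos hη1 hρ2), (min_le_left _ _).trans hρ1', lt_min hν1 (by positivity),
      (min_le_left _ _).trans hν1', hN1.trans ((le_max_left _ _).trans (le_max_left _ _)), ?_⟩
    intro V _ k c U W A M L C D e y b Lc hsym hrec hLc hLs hflat hWU hAW hA hk
      hN hL hLM hy hch hrg hDC hcard hD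
    obtain ⟨A', L', x, x', a, g, l, hrn, hA', hL', hfin⟩ := common (min ρ1 (η1 * ρ2))
      (min ν1 (ν2 / 2)) (max (max N1 N2) (2 * Real.log (1 / η1) / ν2)) (min_le_left _ _)
      (min_le_left _ _) ((le_max_left _ _).trans (le_max_left _ _))
      V k c U W A M L C D e y b Lc hsym hrec hLc hLs hflat hWU hAW hA hk hN hL hLM hy hch hrg hD
    by_cases hg : g ∈ D
    · exact hfin hg
    have hN1' : N1 ≤ Real.log U.card := ((le_max_left _ _).trans (le_max_left _ _)).trans hN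
    have hN2' : N2 ≤ Real.log U.card := ((le_max_right _ _).trans (le_max_left _ _)).trans hN
    have hN3' : 2 * Real.log (1 / η1) / ν2 ≤ Real.log U.card := (le_max_right _ _).trans hN
    have hlog1 : 1 ≤ Real.log U.card := hN1.trans hN1'
    have hν' : min ν1 (ν2 / 2) ≤ ν2 / 2 := min_le_right _ _
    have hlogA : (1 - ν2 / 2) * Real.log U.card ≤ Real.log A.card :=
      le_trans (mul_le_mul_of_nonneg_right (by linarith) (by linarith)) hA
    have hAcard : 0 < (A.card : ℝ) := by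
      rcases Nat.eq_zero_or_pos A.card with h | h
      · exfalso
        rw [h, Nat.cast_zero, Real.log_zero] at hlogA
        have : 0 < (1 - ν2 / 2) * Real.log U.card := mul_pos (by linarith) (by linarith)
        linarith
      · exact_mod_cast h
    refine hrec2 V k c U W A' M L' C (insert g D) e y b Lc hsym hrec hLc hLs hflat hWU
      (hrn.sA.trans hAW) ?_ ?_ hN2' ?_ (hrn.sL.trans hLM) hy hch ?_ ?_ ?_ ?_
    · -- log |A'|
      have h1 : Real.log (η1 * A.card) ≤ Real.log A'.card :=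
        Real.log_le_log (mul_pos hη1 hAcard) hA'
      rw [Real.log_mul hη1.ne' hAcard.ne'] at h1
      have h2 : Real.log (1 / η1) = - Real.log η1 := by rw [one_div, Real.log_inv]
      rw [div_le_iff₀ hν2, h2] at hN3'
      nlinarith
    · refine hk.trans (mul_le_mul_of_nonneg_right (by linarith) (by linarith))
    · calc η1 * δ * Real.log U.card = η1 * (δ * Real.log U.card) := by ring
        _ ≤ η1 * L.card := mul_le_mul_of_nonneg_left hL hη1.le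
        _ ≤ L'.card := hL'
    · intro A'' hA'' L'' hL'' h1 h2
      refine hrg A'' (hA''.trans hrn.sA) L'' (hL''.trans hrn.sL) ?_ ?_
      · calc min ρ1 (η1 * ρ2) * (A.card : ℝ) ≤ η1 * ρ2 * A.card :=
              mul_le_mul_of_nonneg_right (min_le_right _ _) (Nat.cast_nonneg _)
          _ = ρ2 * (η1 * A.card) := by ring
          _ ≤ ρ2 * A'.card := mul_le_mul_of_nonneg_left hA' hρ2.le
          _ ≤ _ := h1
      · calc min ρ1 (η1 * ρ2) * (L.card : ℝ) ≤ η1 * ρ2 * L.card :=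
              mul_le_mul_of_nonneg_right (min_le_right _ _) (Nat.cast_nonneg _)
          _ = ρ2 * (η1 * L.card) := by ring
          _ ≤ ρ2 * L'.card := mul_le_mul_of_nonneg_left hL' hρ2.le
          _ ≤ _ := h2
    · exact Finset.insert_subset hrn.gC hDC
    · have h1 : g ∈ C \ D := Finset.mem_sdiff.mpr ⟨hrn.gC, hg⟩
      have h2 : C \ insert g D = (C \ D).erase g := by
        ext z
        simp only [Finset.mem_sdiff, Finset.mem_insert, Finset.mem_erase]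
        tauto
      rw [h2, Finset.card_erase_of_mem h1]
      omega
    · intro g' hg'
      rcases Finset.mem_insert.mp hg' with h | h
      · subst h
        exact ⟨A, L, x, x', a, l, hAW, hLM, hrn⟩
      · obtain ⟨A0, L0, x0, x0', a0, l0, hA0, hL0, hr0⟩ := hD g' h
        exact ⟨A0, L0, x0, x0', a0, l0, hA0, hL0, it7_mono hr0 hrn.sA hrn.sL⟩

theorem it7 (hrn : Rn7Stmt) (hcn : Cn7Stmt) : It7Stmt := by
  intro θ ω s hθ hθ1 hω hω1 hs
  obtain ⟨lam, hlam, hlam1, hR⟩ := hrn θ ω s hθ hθ1 hω hω1 hs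
  refine ⟨lam, hlam, hlam1, fun δ j1 hδ hδ1 => ?_⟩
  have hall : ∀ m, It7P θ ω s lam m := by
    intro m
    induction m with
    | zero => exact it7_step hcn θ ω s lam hR 0 (Or.inl rfl)
    | succ m ih => exact it7_step hcn θ ω s lam hR (m + 1) (Or.inr ⟨m, rfl, ih⟩)
  obtain ⟨ρ, ν, N0, h1, h2, h3, h4, h5, h6⟩ := hall j1 δ hδ hδ1
  refine ⟨ρ, ν, N0, h1, h2, h3, h4, h5, ?_⟩
  intro V _ k c U A L C e y b Lc hsym hrec hLc hLs hflat hAU hA hk hN hL hC hy hch hrg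
  exact h6 V k c U A A L L C ∅ e y b Lc hsym hrec hLc hLs hflat hAU (Finset.Subset.refl _) hA hk hN
    hL (Finset.Subset.refl _) hy hch hrg (Finset.empty_subset _)
    (by rw [Finset.sdiff_empty]; exact hC) (fun g hg => absurd hg (Finset.notMem_empty _))

end Pool.Agent.EGF.H41
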