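import Pool.Agent.EGF.StmtsQ

/-! EGF block Q, row MA8 (helper41): composition of STC and CL8. -/

set_option autoImplicit false

open Finset

namespace Pool.Agent.EGF.H41

theorem ma8 (hS : StcStmt) (hC : Cl8Stmt) : Ma8Stmt := by
  intro θ h0 h1
  obtain ⟨L, hL, hs⟩ := hS θ h0 h1
  obtain ⟨s0, s1, a0, a1, k1, hk1⟩ := hC (θ / 8) L (by positivity) (by linarith) hL
  obtain ⟨k2, hk2⟩ := hs s0 s1 a0 a1
  refine ⟨max k1 k2, ?_⟩
  intro k hk V _ c W sym no3 no4 h8 hW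
  obtain ⟨W', hsub, hne, f0, f1, hp, hq⟩ :=
    hk2 k (le_trans (le_max_right _ _) hk) V c W sym no4 hW
  refine hk1 k (le_trans (le_max_left _ _) hk) V c W' sym ?_ ?_ f0 f1 hp hq hne
  · intro x hx y hy z hz
    exact no3 x (hsub hx) y (hsub hy) z (hsub hz)
  · intro S hS
    exact h8 S (hS.trans hsub)

end Pool.Agent.EGF.H41
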