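import Pool.Agent.EGF.StmtsQ

/-! EGF block Q, row SG3 (helper41): the star centre and the family of colours. -/

set_option autoImplicit false

open Finset

namespace Pool.Agent.EGF.H41

theorem pal_mono3 {V : Type} [DecidableEq V] {k : ℕ} (c : V → V → Fin k) {S T : Finset V}
    (h : S ⊆ T) : pal c S ⊆ pal c T := by
  unfold pal
  exact image_subset_image (filter_subset_filter _ (product_subset_product h h))

theorem sg3 (hSh : ShaStmt) : Sg3Stmt := by
  intro V _ k c U X B B0 Z0 θ κ δ hR h0 hκ hκ8 h12 h8δ hXU hX hB0 hB hlog hexp hZ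
  obtain ⟨x0, hx0, hx0'⟩ := Finset.exists_mem_eq_sup X hX (fun x => (star c X x).card)
  have hsm : smax c X = (star c X x0).card := hx0'
  set Q := star c X x0 with hQ
  -- half of the maximal star
  have hr := hR.2 X hXU hX
  have hpp : ((pal c X).card : ℝ) ≤ (pal c U).card := by
    exact_mod_cast card_le_card (pal_mono3 c hXU)
  have hhalf : (smax c U : ℝ) / 2 ≤ Q.card := by
    rw [hsm] at hr
    have h1 : θ * ((pal c X).card : ℝ) ≤ θ * (pal c U).card := mul_le_mul_of_nonneg_left hpp h0.le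
    have h2 : θ * ((smax c U : ℝ) / 2) ≤ θ * Q.card := by nlinarith
    exact le_of_mul_le_mul_left h2 h0
  have hQmem : ∀ i ∈ Q, ∃ z ∈ X, z ≠ x0 ∧ c x0 z = i := by
    intro i hi
    rw [hQ] at hi
    unfold star at hi
    rw [mem_image] at hi
    obtain ⟨z, hz, hz'⟩ := hi
    rw [mem_filter] at hz
    exact ⟨z, hz.1, hz.2, hz'⟩
  have hQp : Q ⊆ pal c U := by
    intro i hi
    obtain ⟨z, hz, hzne, hci⟩ := hQmem i hi
    unfold pal
    rw [mem_image]
    refine ⟨(x0, z), ?_, hci⟩
    rw [mem_filter, mem_product]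
    exact ⟨⟨hXU hx0, hXU hz⟩, fun h => hzne h.symm⟩
  have hsha := hSh V k c U θ κ Q hR h0 hκ hκ8 h12 hQp
  have hUpos : (0 : ℝ) < U.card := by exact_mod_cast hR.1.card_pos
  have hB0pos : (0 : ℝ) < B0.card :=
    lt_of_lt_of_le (mul_pos (mul_pos two_pos hUpos) (Real.exp_pos _)) hexp
  -- bad vertices
  set bad := U.filter fun y => ((Q ∩ star c U y).card : ℝ) ≤ 2 * κ * Q.card with hbad
  have hbad2 : 2 * (bad.card : ℝ) ≤ B0.card := by
    have h1 : Real.exp (-(θ * Q.card / 2)) ≤ Real.exp (-(θ * smax c U / 4)) := by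
      apply Real.exp_le_exp.2
      have : θ * ((smax c U : ℝ) / 2) ≤ θ * Q.card := mul_le_mul_of_nonneg_left hhalf h0.le
      linarith
    have h2 : (bad.card : ℝ) ≤ U.card * Real.exp (-(θ * smax c U / 4)) :=
      hsha.trans (mul_le_mul_of_nonneg_left h1 hUpos.le)
    linarith
  set Bi : Fin k → Finset V := fun i => B0.filter fun y => i ∈ star c U y with hBi
  have hdc : ∑ i ∈ Q, (Bi i).card = ∑ y ∈ B0, (Q ∩ star c U y).card := by
    have h1 : ∀ i ∈ Q, (Bi i).card = ∑ y ∈ B0, if i ∈ star c U y then 1 else 0 := by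
      intro i _
      rw [hBi, card_filter]
    have h2 : ∀ y ∈ B0, (Q ∩ star c U y).card = ∑ i ∈ Q, if i ∈ star c U y then 1 else 0 := by
      intro y _
      rw [← card_filter, filter_mem_eq_inter]
    rw [sum_congr rfl h1, sum_congr rfl h2, sum_comm]
  have hlow : κ * Q.card * B0.card ≤ ∑ i ∈ Q, ((Bi i).card : ℝ) := by
    have h1 : (∑ i ∈ Q, ((Bi i).card : ℝ)) = ∑ y ∈ B0, ((Q ∩ star c U y).card : ℝ) := by
      exact_mod_cast hdc
    rw [h1]
    have h2 : ∑ y ∈ B0 \ bad, (2 * κ * (Q.card : ℝ)) ≤ ∑ y ∈ B0, ((Q ∩ star c U y).card : ℝ) := by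
      calc ∑ y ∈ B0 \ bad, (2 * κ * (Q.card : ℝ))
          ≤ ∑ y ∈ B0 \ bad, ((Q ∩ star c U y).card : ℝ) := by
            apply sum_le_sum
            intro y hy
            rw [mem_sdiff] at hy
            by_contra hcon
            push Not at hcon
            apply hy.2
            rw [hbad, mem_filter]
            exact ⟨hB0 hy.1, hcon.le⟩
        _ ≤ ∑ y ∈ B0, ((Q ∩ star c U y).card : ℝ) :=
            sum_le_sum_of_subset_of_nonneg sdiff_subset (fun _ _ _ => Nat.cast_nonneg _)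
    rw [sum_const, nsmul_eq_mul] at h2
    have h3 : (B0.card : ℝ) / 2 ≤ ((B0 \ bad).card : ℝ) := by
      have h4 : B0.card ≤ (B0 \ bad).card + bad.card := by
        have := card_le_card_sdiff_add_card (s := B0) (t := bad)
        omega
      have h5 : (B0.card : ℝ) ≤ (B0 \ bad).card + bad.card := by exact_mod_cast h4
      linarith
    have h6 : (0 : ℝ) ≤ 2 * κ * Q.card := by positivity
    have h7 := mul_le_mul_of_nonneg_right h3 h6
    linarith
  -- good colours
  classical
  set G := Q.filter fun i => κ / 2 * (B0.card : ℝ) ≤ ((Bi i).card : ℝ) with hG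
  have hBile : ∀ i, ((Bi i).card : ℝ) ≤ B0.card := by
    intro i
    exact_mod_cast card_le_card (filter_subset _ _)
  have hup : ∑ i ∈ Q, ((Bi i).card : ℝ) ≤ G.card * B0.card + Q.card * (κ / 2 * B0.card) := by
    rw [← sum_filter_add_sum_filter_not Q (fun i => κ / 2 * (B0.card : ℝ) ≤ ((Bi i).card : ℝ))]
    apply add_le_add
    · calc ∑ i ∈ G, ((Bi i).card : ℝ) ≤ ∑ i ∈ G, (B0.card : ℝ) := sum_le_sum fun i _ => hBile i
        _ = G.card * B0.card := by rw [sum_const, nsmul_eq_mul]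
    · calc ∑ i ∈ Q.filter (fun i => ¬ κ / 2 * (B0.card : ℝ) ≤ ((Bi i).card : ℝ)), ((Bi i).card : ℝ)
          ≤ ∑ i ∈ Q.filter (fun i => ¬ κ / 2 * (B0.card : ℝ) ≤ ((Bi i).card : ℝ)),
            (κ / 2 * (B0.card : ℝ)) := by
            apply sum_le_sum
            intro i hi
            rw [mem_filter] at hi
            push Not at hi
            exact hi.2.le
        _ = ((Q.filter (fun i => ¬ κ / 2 * (B0.card : ℝ) ≤ ((Bi i).card : ℝ))).card : ℝ) *
            (κ / 2 * B0.card) := by rw [sum_const, nsmul_eq_mul]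
        _ ≤ Q.card * (κ / 2 * B0.card) := by
            apply mul_le_mul_of_nonneg_right
            · exact_mod_cast card_le_card (filter_subset _ _)
            · positivity
  have hGc : κ / 4 * smax c U ≤ (G.card : ℝ) := by
    have h1 : κ / 2 * Q.card * B0.card ≤ G.card * B0.card := by nlinarith
    have h2 : κ / 2 * Q.card ≤ G.card := le_of_mul_le_mul_right h1 hB0pos
    have h3 := mul_le_mul_of_nonneg_left hhalf (by positivity : (0 : ℝ) ≤ κ / 2)
    linarith
  -- choice
  have hch : ∀ i : Fin k, ∃ z : V, i ∈ Q → z ∈ X ∧ z ≠ x0 ∧ c x0 z = i := by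
    intro i
    by_cases hi : i ∈ Q
    · obtain ⟨z, hz⟩ := hQmem i hi
      exact ⟨z, fun _ => hz⟩
    · exact ⟨x0, fun h => absurd h hi⟩
  choose x' hx' using hch
  refine ⟨x0, hx0, G \ Z0, ?_, x', ?_, ?_, ?_⟩
  · exact sdiff_subset.trans ((filter_subset _ _).trans hQp)
  · exact disjoint_sdiff_self_left
  · have h4 : G.card ≤ (G \ Z0).card + Z0.card := by
      have := card_le_card_sdiff_add_card (s := G) (t := Z0)
      omega
    have h5 : (G.card : ℝ) ≤ (G \ Z0).card + Z0.card := by exact_mod_cast h4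
    linarith
  · intro i hi
    rw [mem_sdiff, hG, mem_filter] at hi
    obtain ⟨⟨hiQ, hiB⟩, _⟩ := hi
    obtain ⟨a1, a2, a3⟩ := hx' i hiQ
    refine ⟨a1, a2, a3, ?_⟩
    have h1 : δ * B.card ≤ κ / 8 * B.card :=
      mul_le_mul_of_nonneg_right (by linarith) (Nat.cast_nonneg _)
    have h2 := mul_le_mul_of_nonneg_left hB (by positivity : (0 : ℝ) ≤ κ / 8)
    have h3 : δ * B.card ≤ κ / 2 * B0.card := by linarith
    exact h3.trans hiB

end Pool.Agent.EGF.H41
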