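import Pool.Agent.EGF.StmtsQ

/-! EGF block Q, row STC (helper41): one constant, all set sizes. -/

set_option autoImplicit false

open Finset

namespace Pool.Agent.EGF.H41

theorem pal_monoC {V : Type} [DecidableEq V] {k : ℕ} (c : V → V → Fin k) {S T : Finset V}
    (h : S ⊆ T) : pal c S ⊆ pal c T := by
  unfold pal
  exact image_subset_image (filter_subset_filter _ (product_subset_product h h))

theorem flat_sub {V : Type} [DecidableEq V] {k : ℕ} (c : V → V → Fin k) {S T : Finset V}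
    {s : ℕ} {a b : ℝ} (h : S ⊆ T) (hab : a ≤ b) (hf : Flat c T s a) : Flat c S s b :=
  fun R hR hc => (hf R (hR.trans h) hc).trans hab

theorem no4_sub {V : Type} [DecidableEq V] {k : ℕ} (c : V → V → Fin k) {S T : Finset V}
    (h : S ⊆ T) (hf : No4 c T) : No4 c S :=
  fun x hx x' hx' y hy y' hy' => hf x (h hx) x' (h hx') y (h hy) y' (h hy')

/-- the numerical conditions in terms of `y`, `k = y ^ 16` -/
theorem stc_num (θ M lg : ℝ) (h0 : 0 < θ) (h1 : θ ≤ 1) (hM : 1 ≤ M) (hlg : 0 ≤ lg) :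
    ∃ Y0 : ℝ, 1 ≤ Y0 ∧ ∀ y : ℝ, Y0 ≤ y →
      M * y ^ 2 * (32 * (57 * y)) ≤ θ * y ^ 16 ∧ 256 * (3 * (17 * y) + 8) ≤ θ * y ^ 16 ∧
      32 * (M * y ^ 2) * (256 * y ^ 8) ≤ θ * y ^ 16 ∧ 4 * (16 * y + 8 * lg + 8) ≤ y ^ 8 := by
  have hMp : 0 < M := by linarith
  refine ⟨1 + 1824 * M / θ + 15104 / θ + 8192 * M / θ + (96 + 32 * lg), ?_, ?_⟩
  · have a1 : 0 ≤ 1824 * M / θ := by positivity
    have a2 : 0 ≤ 15104 / θ := by positivity
    have a3 : 0 ≤ 8192 * M / θ := by positivity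
    linarith
  intro y hy
  have a1 : 0 ≤ 1824 * M / θ := by positivity
  have a2 : 0 ≤ 15104 / θ := by positivity
  have a3 : 0 ≤ 8192 * M / θ := by positivity
  have hy1 : 1 ≤ y := by linarith
  have hy0 : 0 < y := by linarith
  have e1 : 1824 * M / θ ≤ y := by linarith
  have e2 : 15104 / θ ≤ y := by linarith
  have e3 : 8192 * M / θ ≤ y := by linarith
  have e4 : 96 + 32 * lg ≤ y := by linarith
  rw [div_le_iff₀ h0] at e1 e2 e3
  have p : ∀ n : ℕ, 1 ≤ y ^ n := fun n => one_le_pow₀ hy1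
  refine ⟨?_, ?_, ?_, ?_⟩
  · calc M * y ^ 2 * (32 * (57 * y)) = (1824 * M) * y ^ 3 := by ring
      _ ≤ (y * θ) * y ^ 3 := mul_le_mul_of_nonneg_right e1 (by positivity)
      _ = (θ * y ^ 4) * 1 := by ring
      _ ≤ (θ * y ^ 4) * y ^ 12 := mul_le_mul_of_nonneg_left (p 12) (by positivity)
      _ = θ * y ^ 16 := by ring
  · calc 256 * (3 * (17 * y) + 8) ≤ 256 * (3 * (17 * y) + 8 * y) := by linarith
      _ = 15104 * y := by ring
      _ ≤ (y * θ) * y := mul_le_mul_of_nonneg_right e2 hy0.le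
      _ = (θ * y ^ 2) * 1 := by ring
      _ ≤ (θ * y ^ 2) * y ^ 14 := mul_le_mul_of_nonneg_left (p 14) (by positivity)
      _ = θ * y ^ 16 := by ring
  · calc 32 * (M * y ^ 2) * (256 * y ^ 8) = (8192 * M) * y ^ 10 := by ring
      _ ≤ (y * θ) * y ^ 10 := mul_le_mul_of_nonneg_right e3 (by positivity)
      _ = (θ * y ^ 11) * 1 := by ring
      _ ≤ (θ * y ^ 11) * y ^ 5 := mul_le_mul_of_nonneg_left (p 5) (by positivity)
      _ = θ * y ^ 16 := by ring
  · calc 4 * (16 * y + 8 * lg + 8) = 64 * y + 32 * lg * 1 + 32 * 1 := by ring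
      _ ≤ 64 * y + 32 * lg * y + 32 * y := by
          have : 32 * lg * 1 ≤ 32 * lg * y := mul_le_mul_of_nonneg_left hy1 (by positivity)
          linarith
      _ = (96 + 32 * lg) * y := by ring
      _ ≤ y * y := mul_le_mul_of_nonneg_right e4 hy0.le
      _ = y ^ 2 * 1 := by ring
      _ ≤ y ^ 2 * y ^ 6 := mul_le_mul_of_nonneg_left (p 6) (by positivity)
      _ = y ^ 8 := by ring

theorem stc (h0 : St0Stmt) (hP : StpStmt) : StcStmt := by
  intro θ hθ hθ1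
  obtain ⟨r, hr⟩ : ∃ r : ℕ, (128 / θ) ^ 2 ≤ (r : ℝ) := exists_nat_ge _
  have hr1 : (1 : ℝ) ≤ r := by
    have h1 : 1 ≤ 128 / θ := by rw [le_div_iff₀ hθ]; linarith
    have h2 : 1 ≤ (128 / θ) ^ 2 := one_le_pow₀ h1
    linarith
  set s : ℕ := 32 * r ^ 2 + 1 with hs
  set lg : ℝ := Real.log s with hlgd
  have hs1 : (1 : ℝ) ≤ s := by
    rw [hs]; push_cast; nlinarith
  have hlg : 0 ≤ lg := Real.log_nonneg hs1
  set L : ℝ := 63 * lg / θ + 1 with hLd
  have hl0 : 0 ≤ lg / θ := div_nonneg hlg hθ.le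
  have hLe : L = 63 * (lg / θ) + 1 := by rw [hLd]; ring
  refine ⟨L, by linarith, ?_⟩
  intro s0 s1 hs0 hs1'
  have c0 : (1 : ℝ) ≤ s0 := by exact_mod_cast hs0
  have c1 : (1 : ℝ) ≤ s1 := by exact_mod_cast hs1'
  set M : ℝ := (r : ℝ) ^ 2 + (595 / θ) ^ 2 with hM
  have hM1 : 1 ≤ M := by
    have h1 : (1 : ℝ) ≤ (r : ℝ) ^ 2 := one_le_pow₀ hr1
    have h2 : 0 ≤ (595 / θ) ^ 2 := sq_nonneg _
    linarith
  obtain ⟨Y0, hY1, hY⟩ := stc_num θ M lg hθ hθ1 hM1 hlg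
  obtain ⟨k₀, hk₀⟩ : ∃ k₀ : ℕ, Y0 ^ 16 ≤ (k₀ : ℝ) := exists_nat_ge _
  refine ⟨k₀, ?_⟩
  intro k hk V _ c W sym no4 hW
  have hkR : Y0 ^ 16 ≤ (k : ℝ) := hk₀.trans (by exact_mod_cast hk)
  have hk0 : (0 : ℝ) ≤ (k : ℝ) := Nat.cast_nonneg k
  obtain ⟨y, hy0, hyk⟩ : ∃ y : ℝ, 0 ≤ y ∧ y ^ 16 = (k : ℝ) := by
    refine ⟨(k : ℝ) ^ ((1 : ℝ) / 16), Real.rpow_nonneg hk0 _, ?_⟩
    rw [← Real.rpow_natCast, ← Real.rpow_mul hk0]
    norm_num
  have hyY : Y0 ≤ y := by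
    by_contra hcon
    push Not at hcon
    have h1 : y ^ 16 < Y0 ^ 16 := pow_lt_pow_left₀ hcon hy0 (by norm_num)
    rw [hyk] at h1
    linarith
  obtain ⟨n1, n2, n3, n4⟩ := hY y hyY
  have hy1 : 1 ≤ y := hY1.trans hyY
  have hypos : 0 < y := by linarith
  have hk1 : (1 : ℝ) ≤ k := by rw [← hyk]; exact one_le_pow₀ hy1
  have hkpos : (0 : ℝ) < k := by linarith
  have hsq : √(k : ℝ) = y ^ 8 := by
    rw [← hyk, show y ^ 16 = (y ^ 8) ^ 2 by ring, Real.sqrt_sq (by positivity)]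
  have hlogk : Real.log k ≤ 16 * y := by
    rw [← hyk, Real.log_pow]
    have := Real.log_le_sub_one_of_pos hypos
    push_cast
    linarith
  have hlog2k : Real.log (2 * k) ≤ 17 * y := by
    rw [Real.log_mul (by norm_num) hkpos.ne']
    have h2 : Real.log 2 ≤ 1 := by
      have := Real.log_le_sub_one_of_pos (show (0 : ℝ) < 2 by norm_num)
      linarith
    linarith
  have hlog2k0 : 0 ≤ Real.log (2 * k) := Real.log_nonneg (by linarith)
  -- the bound for r ^ 2 + ℓ ^ 2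
  have hell : (r : ℝ) ^ 2 + (35 * Real.log (2 * k) / θ) ^ 2 ≤ M * y ^ 2 := by
    have h1 : 35 * Real.log (2 * k) / θ ≤ 595 / θ * y := by
      rw [div_mul_eq_mul_div]
      apply div_le_div_of_nonneg_right _ hθ.le
      linarith
    have h2 : 0 ≤ 35 * Real.log (2 * k) / θ := by positivity
    have h3 : (35 * Real.log (2 * k) / θ) ^ 2 ≤ (595 / θ * y) ^ 2 := pow_le_pow_left₀ h2 h1 2
    have h4 : (r : ℝ) ^ 2 * 1 ≤ (r : ℝ) ^ 2 * y ^ 2 :=
      mul_le_mul_of_nonneg_left (one_le_pow₀ hy1) (by positivity)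
    calc (r : ℝ) ^ 2 + (35 * Real.log (2 * k) / θ) ^ 2 ≤
        (r : ℝ) ^ 2 * y ^ 2 + (595 / θ * y) ^ 2 := by linarith
      _ = M * y ^ 2 := by rw [hM]; ring
  have hell0 : 0 ≤ (r : ℝ) ^ 2 + (35 * Real.log (2 * k) / θ) ^ 2 := by positivity
  have hWk : θ * y ^ 16 ≤ Real.log W.card := by rw [hyk]; exact hW
  have hWpos : 0 < Real.log W.card := lt_of_lt_of_le (by positivity) hWk
  have hWne : W.Nonempty := by
    rw [nonempty_iff_ne_empty]
    intro h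
    rw [h] at hWpos
    simp at hWpos
  have hpalk : ((pal c W).card : ℝ) ≤ k := by
    have := card_le_univ (pal c W)
    rw [Fintype.card_fin] at this
    exact_mod_cast this
  have g1 : θ * (pal c W).card ≤ Real.log W.card :=
    (mul_le_mul_of_nonneg_left hpalk hθ.le).trans hW
  have g2 : ((r : ℝ) ^ 2 + (35 * Real.log (2 * k) / θ) ^ 2) * (32 * (Real.log (2 * k) + 40)) ≤
      Real.log W.card := by
    have h1 : 32 * (Real.log (2 * k) + 40) ≤ 32 * (57 * y) := by linarith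
    have h2 : ((r : ℝ) ^ 2 + (35 * Real.log (2 * k) / θ) ^ 2) * (32 * (Real.log (2 * k) + 40)) ≤
        (M * y ^ 2) * (32 * (57 * y)) :=
      mul_le_mul hell h1 (by positivity) (by positivity)
    linarith
  have g3 : 256 * (3 * Real.log (2 * k) + 8) ≤ Real.log W.card := by linarith
  obtain ⟨W1, hW1, hne1, f1, p1, l1⟩ := h0 V k c θ r W sym no4 hθ hθ1 hr hWne g1 g2 g3
  have l2 : 256 * y ^ 8 ≤ Real.log W1.card := by
    by_contra hcon
    push Not at hcon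
    have a1 : 0 < M * y ^ 2 := by positivity
    have a2 : 32 * ((r : ℝ) ^ 2 + (35 * Real.log (2 * k) / θ) ^ 2) * Real.log W1.card ≤
        32 * (M * y ^ 2) * Real.log W1.card := by
      have h5 : 0 ≤ Real.log W1.card := Real.log_nonneg (by exact_mod_cast hne1.card_pos)
      exact mul_le_mul_of_nonneg_right (by linarith) h5
    have a3 : 32 * (M * y ^ 2) * Real.log W1.card < 32 * (M * y ^ 2) * (256 * y ^ 8) :=
      mul_lt_mul_of_pos_left hcon (by positivity)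
    linarith
  have hkey : Real.log k + 8 * lg + 8 ≤ y ^ 8 / 4 := by linarith
  have hy8 : 0 < y ^ 8 := by positivity
  have hLrs : 32 * (r : ℝ) ^ 2 + 1 ≤ s := by rw [hs]; push_cast; exact le_refl _
  have hr2 : (1 : ℝ) ≤ (r : ℝ) ^ 2 := one_le_pow₀ hr1
  obtain ⟨W2, hW2, hne2, f2, p2, l3⟩ := hP V k c W1 (θ / 2) (1 / 8) (1 / 8) ((r : ℝ) ^ 2) s s0 sym
    (no4_sub c hW1 no4) (by positivity) (by norm_num) (by norm_num) (by norm_num) (by norm_num)
    hr2 hLrs hs0 hne1 f1 p1 (by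
      show Real.log k + 8 * lg + 8 ≤ 1 / 8 * (1 / 8) * Real.log W1.card
      linarith)
  have l4 : 16 * y ^ 8 ≤ Real.log W2.card := by linarith
  obtain ⟨W3, hW3, hne3, f3, p3, l5⟩ := hP V k c W2 ((1 - 2 * (1 / 8)) * (1 - 1 / 8) * (θ / 2))
    (1 / 8) (1 / 8) ((r : ℝ) ^ 2) s s1 sym
    (no4_sub c (hW2.trans hW1) no4) (by positivity) (by norm_num) (by norm_num) (by norm_num)
    (by norm_num) hr2 hLrs hs1' hne2 (flat_sub c hW2 (le_refl _) f1) p2 (by
      show Real.log k + 8 * lg + 8 ≤ 1 / 8 * (1 / 8) * Real.log W2.card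
      linarith)
  refine ⟨W3, hW3.trans (hW2.trans hW1), hne3, ?_, ?_, ?_, ?_⟩
  · refine flat_sub c hW3 ?_ f2
    have h1 : (1 + (s0 : ℝ) / (1 / 8)) * (2 * Real.log s) / ((1 - 1 / 8) * (θ / 2)) =
        (32 / 7) * (lg / θ) * (1 + 8 * s0) := by
      rw [← hlgd]; field_simp; ring
    rw [h1, hLe]
    have h2 : (32 / 7) * (lg / θ) * (1 + 8 * (s0 : ℝ)) ≤ (32 / 7) * (lg / θ) * (9 * s0) :=
      mul_le_mul_of_nonneg_left (by linarith) (by positivity)
    have h3 : 0 ≤ (lg / θ) * s0 := by positivity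
    nlinarith
  · refine flat_sub c (Subset.refl _) ?_ f3
    have h1 : (1 + (s1 : ℝ) / (1 / 8)) * (2 * Real.log s) /
        ((1 - 1 / 8) * ((1 - 2 * (1 / 8)) * (1 - 1 / 8) * (θ / 2))) =
        (1024 / 147) * (lg / θ) * (1 + 8 * s1) := by
      rw [← hlgd]; field_simp; ring
    rw [h1, hLe]
    have h2 : (1024 / 147) * (lg / θ) * (1 + 8 * (s1 : ℝ)) ≤ (1024 / 147) * (lg / θ) * (9 * s1) :=
      mul_le_mul_of_nonneg_left (by linarith) (by positivity)
    have h3 : 0 ≤ (lg / θ) * s1 := by positivity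
    nlinarith
  · have h1 : θ / 8 * ((pal c W3).card : ℝ) ≤
        (1 - 2 * (1 / 8)) * (1 - 1 / 8) * ((1 - 2 * (1 / 8)) * (1 - 1 / 8) * (θ / 2)) *
          (pal c W3).card := by
      apply mul_le_mul_of_nonneg_right _ (Nat.cast_nonneg _)
      linarith
    linarith
  · rw [hsq]
    linarith

end Pool.Agent.EGF.H41
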