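import Pool.Agent.EGF.StmtsS

/-!
# Squad EGF, row STS: a robust colour gives a star system
-/

set_option autoImplicit false

open Finset

namespace Pool.Agent.EGF.H41

theorem sts : StsStmt := by
  intro V _ k c A g T κ hT hκ hR
  -- the systems with `i` stars
  have main : ∀ i : ℕ, i ≤ ⌊κ * (A.card : ℝ) / 2⌋₊ + 1 → ∃ (x : ℕ → V) (W : ℕ → Finset V),
      (∀ j < i, x j ∈ A) ∧ (∀ j < i, ∀ l < i, x j = x l → j = l) ∧ (∀ j < i, W j ⊆ A) ∧
      (∀ j < i, T ≤ ((W j).card : ℝ)) ∧
      (∀ a ∈ A, ∑ j ∈ range i, (if a ∈ W j then (1 : ℝ) / (W j).card else 0) ≤ 2) ∧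
      ∀ j < i, ∀ w ∈ W j, w ≠ x j ∧ c (x j) w = g := by
    intro i
    induction i with
    | zero =>
      intro _
      obtain ⟨x, -, -⟩ := hR ∅ (Finset.empty_subset _) (by
        rw [Finset.card_empty, Nat.cast_zero]
        positivity)
      refine ⟨fun _ => x, fun _ => ∅, ?_, ?_, ?_, ?_, ?_, ?_⟩
      · intro j hj; omega
      · intro j hj; omega
      · intro j hj; omega
      · intro j hj; omega
      · intro a _
        simp
      · intro j hj; omega
    | succ i ih =>
      intro hi
      obtain ⟨x, W, h1, h2, h3, h4, h5, h6⟩ := ih (by omega)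
      have hi2 : (i : ℝ) ≤ κ * (A.card : ℝ) / 2 := by
        have h7 : i ≤ ⌊κ * (A.card : ℝ) / 2⌋₊ := by omega
        calc (i : ℝ) ≤ (⌊κ * (A.card : ℝ) / 2⌋₊ : ℝ) := by exact_mod_cast h7
          _ ≤ _ := Nat.floor_le (by positivity)
      obtain ⟨ld, hld⟩ : ∃ ld : V → ℝ, ld = fun a =>
        ∑ j ∈ range i, (if a ∈ W j then (1 : ℝ) / (W j).card else 0) := ⟨_, rfl⟩
      have hld0 : ∀ a, 0 ≤ ld a := by
        intro a
        rw [hld]
        refine Finset.sum_nonneg fun j _ => ?_
        split_ifs
        · positivity
        · exact le_refl _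
      have hsum : ∑ a ∈ A, ld a ≤ (i : ℝ) := by
        rw [hld]
        rw [Finset.sum_comm]
        calc ∑ j ∈ range i, ∑ a ∈ A, (if a ∈ W j then (1 : ℝ) / (W j).card else 0)
            ≤ ∑ _j ∈ range i, (1 : ℝ) := by
              refine Finset.sum_le_sum fun j hj => ?_
              have hj' := Finset.mem_range.1 hj
              rw [← Finset.sum_filter]
              have h8 : A.filter (fun a => a ∈ W j) = W j := by
                ext a
                rw [Finset.mem_filter]
                exact ⟨fun h => h.2, fun h => ⟨h3 j hj' h, h⟩⟩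
              rw [h8, Finset.sum_const, nsmul_eq_mul]
              have h9 : (0 : ℝ) < (W j).card := lt_of_lt_of_le hT (h4 j hj')
              rw [mul_one_div, div_self h9.ne']
          _ = (i : ℝ) := by simp
      have hcard : (((A.filter (fun a => 1 ≤ ld a)).card : ℕ) : ℝ) ≤ i := by
        calc (((A.filter (fun a => 1 ≤ ld a)).card : ℕ) : ℝ)
            = ∑ _a ∈ A.filter (fun a => 1 ≤ ld a), (1 : ℝ) := by simp
          _ ≤ ∑ a ∈ A.filter (fun a => 1 ≤ ld a), ld a :=
              Finset.sum_le_sum fun a ha => (Finset.mem_filter.1 ha).2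
          _ ≤ ∑ a ∈ A, ld a :=
              Finset.sum_le_sum_of_subset_of_nonneg (Finset.filter_subset _ _)
                fun a _ _ => hld0 a
          _ ≤ i := hsum
      obtain ⟨R, hRdef⟩ : ∃ R, R = (range i).image x ∪ A.filter (fun a => 1 ≤ ld a) := ⟨_, rfl⟩
      have hRA : R ⊆ A := by
        rw [hRdef]
        refine Finset.union_subset ?_ (Finset.filter_subset _ _)
        intro a ha
        obtain ⟨j, hj, rfl⟩ := Finset.mem_image.1 ha
        exact h1 j (Finset.mem_range.1 hj)
      have hRc : (R.card : ℝ) ≤ κ * A.card := by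
        have h10 : R.card ≤ i + (A.filter (fun a => 1 ≤ ld a)).card := by
          rw [hRdef]
          refine (Finset.card_union_le _ _).trans ?_
          have : ((range i).image x).card ≤ i := by
            have := Finset.card_image_le (s := range i) (f := x)
            rwa [Finset.card_range] at this
          omega
        have h11 : (R.card : ℝ) ≤ i + ((A.filter (fun a => 1 ≤ ld a)).card : ℝ) := by
          exact_mod_cast h10
        linarith
      obtain ⟨x', hx', hTx⟩ := hR R hRA hRc
      obtain ⟨W', hW'⟩ : ∃ W', W' = nb c (A \ R) g x' := ⟨_, rfl⟩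
      rw [← hW'] at hTx
      have hW'm : ∀ w ∈ W', w ∈ A ∧ w ∉ R ∧ w ≠ x' ∧ c x' w = g := by
        intro w hw
        rw [hW'] at hw
        unfold nb at hw
        rw [Finset.mem_filter, Finset.mem_sdiff] at hw
        exact ⟨hw.1.1, hw.1.2, hw.2.1, hw.2.2⟩
      obtain ⟨hx'A, hx'R⟩ := Finset.mem_sdiff.1 hx'
      have hW'0 : (0 : ℝ) < W'.card := lt_of_lt_of_le hT hTx
      have hW'1 : (1 : ℝ) ≤ W'.card := by
        have : 0 < W'.card := by exact_mod_cast hW'0
        exact_mod_cast this
      have hxne : ∀ j < i, x j ≠ x' := by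
        intro j hj h
        apply hx'R
        rw [hRdef, Finset.mem_union]
        exact Or.inl (Finset.mem_image.2 ⟨j, Finset.mem_range.2 hj, h⟩)
      have ux : ∀ j < i, Function.update x i x' j = x j := fun j hj =>
        Function.update_of_ne (by omega) _ _
      have uW : ∀ j < i, Function.update W i W' j = W j := fun j hj =>
        Function.update_of_ne (by omega) _ _
      have uxi : Function.update x i x' i = x' := Function.update_self _ _ _
      have uWi : Function.update W i W' i = W' := Function.update_self _ _ _
      refine ⟨Function.update x i x', Function.update W i W', ?_, ?_, ?_, ?_, ?_, ?_⟩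
      · intro j hj
        rcases Nat.lt_succ_iff_lt_or_eq.1 hj with h | rfl
        · rw [ux j h]
          exact h1 j h
        · rw [uxi]
          exact hx'A
      · intro j hj l hl h
        rcases Nat.lt_succ_iff_lt_or_eq.1 hj with hj' | rfl
        · rcases Nat.lt_succ_iff_lt_or_eq.1 hl with hl' | rfl
          · rw [ux j hj', ux l hl'] at h
            exact h2 j hj' l hl' h
          · rw [ux j hj', uxi] at h
            exact absurd h (hxne j hj')
        · rcases Nat.lt_succ_iff_lt_or_eq.1 hl with hl' | rfl
          · rw [ux l hl', uxi] at h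
            exact absurd h.symm (hxne l hl')
          · rfl
      · intro j hj
        rcases Nat.lt_succ_iff_lt_or_eq.1 hj with h | rfl
        · rw [uW j h]
          exact h3 j h
        · rw [uWi]
          intro w hw
          exact (hW'm w hw).1
      · intro j hj
        rcases Nat.lt_succ_iff_lt_or_eq.1 hj with h | rfl
        · rw [uW j h]
          exact h4 j h
        · rw [uWi]
          exact hTx
      · intro a ha
        rw [Finset.sum_range_succ, uWi]
        have h12 : ∑ j ∈ range i, (if a ∈ Function.update W i W' j then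
            (1 : ℝ) / (Function.update W i W' j).card else 0) = ld a := by
          rw [hld]
          refine Finset.sum_congr rfl fun j hj => ?_
          rw [uW j (Finset.mem_range.1 hj)]
        rw [h12]
        by_cases haW : a ∈ W'
        · rw [if_pos haW]
          have h13 : ld a < 1 := by
            by_contra h
            apply (hW'm a haW).2.1
            rw [hRdef, Finset.mem_union]
            exact Or.inr (Finset.mem_filter.2 ⟨ha, not_lt.1 h⟩)
          have h14 : (1 : ℝ) / W'.card ≤ 1 := by
            rw [div_le_one hW'0]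
            exact hW'1
          linarith
        · rw [if_neg haW, add_zero, hld]
          exact h5 a ha
      · intro j hj w hw
        rcases Nat.lt_succ_iff_lt_or_eq.1 hj with h | rfl
        · rw [uW j h] at hw
          rw [ux j h]
          exact h6 j h w hw
        · rw [uWi] at hw
          rw [uxi]
          exact (hW'm w hw).2.2
  obtain ⟨x, W, h1, h2, h3, h4, h5, h6⟩ := main _ (le_refl _)
  refine ⟨_, x, W, ⟨h1, h2, h3, h4, ?_, ?_⟩, h6⟩
  · intro a ha
    rw [Finset.sum_filter]
    exact h5 a ha
  · push_cast
    have := Nat.lt_floor_add_one (κ * (A.card : ℝ) / 2)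
    linarith

end Pool.Agent.EGF.H41
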