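import Pool.Agent.EGF.StmtsV

/-!
# Squad EGF, block V, row WTS: the weights of disjoint spots
-/

set_option autoImplicit false

open Finset

namespace Pool.Agent.EGF.H41

theorem sum_le_of_one (m : ℕ) (f : ℕ → ℝ) (b : ℝ) (hb : 0 ≤ b) (h1 : ∀ i < m, f i ≤ b)
    (h2 : ∀ i < m, ∀ j < m, f i ≠ 0 → f j ≠ 0 → i = j) : ∑ i ∈ range m, f i ≤ b := by
  by_cases h : ∃ i < m, f i ≠ 0
  · obtain ⟨i, hi, hfi⟩ := h
    rw [sum_eq_single i]
    · exact h1 i hi
    · intro j hj hji
      by_contra hfj
      exact hji (h2 j (mem_range.mp hj) i hi hfj hfi)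
    · intro h; exact absurd (mem_range.mpr hi) h
  · push Not at h
    rw [sum_eq_zero fun i hi => h i (mem_range.mp hi)]
    exact hb

theorem wts : WtsStmt := by
  intro V _ k c g A N T m X0 X1 R K κ hκ hT hNT hA hS
  have hT0 : (0 : ℝ) < T := by exact_mod_cast hT
  have hAK : (A.card : ℝ) ≤ K * T * m := by
    have h1 : κ * A.card ≤ κ * (K * T * m) := by
      have h2 : 2 * (N : ℝ) * m ≤ K * κ * T * m :=
        mul_le_mul_of_nonneg_right hNT (Nat.cast_nonneg m)
      calc κ * A.card ≤ 2 * (N : ℝ) * m := hA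
        _ ≤ K * κ * T * m := h2
        _ = κ * (K * T * m) := by ring
    exact le_of_mul_le_mul_left h1 hκ
  have h0nn : ∀ i a, 0 ≤ wt0 (X0 i) T a := by
    intro i a
    unfold wt0
    split_ifs <;> positivity
  have h1nn : ∀ i a, 0 ≤ wt1 (X0 i) (R i) T a := by
    intro i a
    unfold wt1
    positivity
  have hfin : ∀ s : ℝ, s ≤ 1 / T → s * A.card ≤ K * m := by
    intro s hs
    have h2 : s * A.card ≤ 1 / T * A.card := mul_le_mul_of_nonneg_right hs (Nat.cast_nonneg _)
    have h3 : 1 / (T : ℝ) * A.card ≤ 1 / T * (K * T * m) :=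
      mul_le_mul_of_nonneg_left hAK (by positivity)
    have h4 : 1 / (T : ℝ) * (K * T * m) = K * m := by field_simp
    linarith
  have huniq : ∀ i < m, ∀ j < m, ∀ a, a ∈ X0 i ∪ X1 i → a ∈ X0 j ∪ X1 j → i = j := by
    intro i hi j hj a hai haj
    by_contra hij
    exact (disjoint_left.mp (hS.hd i hi j hj hij)) hai haj
  refine ⟨?_, ?_, ?_, ?_⟩
  · intro i hi
    obtain ⟨hX0, hX1, c0, c1, _⟩ := hS.h0 i hi
    refine ⟨fun a _ => h0nn i a, ?_⟩
    unfold wt0
    rw [← sum_filter]
    have h2 : A.filter (fun a => a ∈ X0 i) = X0 i := by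
      ext a
      rw [mem_filter]
      exact ⟨fun h => h.2, fun h => ⟨hX0 h, h⟩⟩
    rw [h2, sum_const, c0, nsmul_eq_mul]
    field_simp
  · intro i hi
    obtain ⟨hX0, hX1, c0, c1, _⟩ := hS.h0 i hi
    refine ⟨fun a _ => h1nn i a, ?_⟩
    unfold wt1
    rw [← sum_div]
    have h2 : ∑ a ∈ A, (((X0 i).filter fun x => a ∈ R i x).card : ℝ) = (T : ℝ) ^ 2 := by
      have h3 : ∑ a ∈ A, ((X0 i).filter fun x => a ∈ R i x).card =
          ∑ x ∈ X0 i, (A.filter fun a => a ∈ R i x).card := by
        simp only [card_filter]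
        exact sum_comm
      have h4 : ∀ x ∈ X0 i, (A.filter fun a => a ∈ R i x).card = T := by
        intro x hx
        obtain ⟨h5, h6, _⟩ := hS.hR i hi x hx
        have h7 : (A.filter fun a => a ∈ R i x) = R i x := by
          ext a
          rw [mem_filter]
          exact ⟨fun h => h.2, fun h => ⟨hX1 (h5 h), h⟩⟩
        rw [h7, h6]
      have h8 : ∑ a ∈ A, ((X0 i).filter fun x => a ∈ R i x).card = T * T := by
        rw [h3, sum_congr rfl h4, sum_const, c0, smul_eq_mul]
      have h9 : ((∑ a ∈ A, ((X0 i).filter fun x => a ∈ R i x).card : ℕ) : ℝ) =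
          ((T * T : ℕ) : ℝ) := by rw [h8]
      push_cast at h9
      rw [h9]; ring
    rw [h2]
    field_simp
  · intro a ha
    refine hfin _ (sum_le_of_one m _ _ (by positivity) ?_ ?_)
    · intro i hi
      unfold wt0
      split_ifs
      · exact le_refl _
      · positivity
    · intro i hi j hj h3 h4
      have hmem : ∀ i, wt0 (X0 i) T a ≠ 0 → a ∈ X0 i := by
        intro i h
        unfold wt0 at h
        by_contra hc
        rw [if_neg hc] at h
        exact h rfl
      exact huniq i hi j hj a (mem_union_left _ (hmem i h3)) (mem_union_left _ (hmem j h4))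
  · intro a ha
    refine hfin _ (sum_le_of_one m _ _ (by positivity) ?_ ?_)
    · intro i hi
      obtain ⟨hX0, hX1, c0, c1, _⟩ := hS.h0 i hi
      unfold wt1
      have h3 : (((X0 i).filter fun x => a ∈ R i x).card : ℝ) ≤ T := by
        have h4 := card_filter_le (X0 i) fun x => a ∈ R i x
        rw [c0] at h4
        exact_mod_cast h4
      rw [div_le_div_iff₀ (by positivity) hT0]
      nlinarith
    · intro i hi j hj h3 h4
      have hmem : ∀ i < m, wt1 (X0 i) (R i) T a ≠ 0 → a ∈ X1 i := by
        intro i hi h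
        unfold wt1 at h
        by_contra hc
        apply h
        have h5 : (X0 i).filter (fun x => a ∈ R i x) = ∅ := by
          rw [filter_eq_empty_iff]
          intro x hx hax
          exact hc ((hS.hR i hi x hx).1 hax)
        rw [h5, card_empty, Nat.cast_zero, zero_div]
      exact huniq i hi j hj a (mem_union_right _ (hmem i hi h3))
        (mem_union_right _ (hmem j hj h4))

end Pool.Agent.EGF.H41
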